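import Mathlib
import Pool.Agent.N57.TF.Fail

/-!
# A torsion-free metanilpotent variety of groups which is not finitely based

Varieties are given by sets `W` of words in the free group on `ℕ`; a group `G` belongs to the
variety of `W` if every `w ∈ W` evaluates to `1` under every assignment `ℕ → G`.
The free group of the variety on the set `X` is the quotient of `FreeGroup X` by the verbal subgroup
of `W`, here written as the normal closure of all images `φ w` of words of `W`.
-/

universe u v

namespace Pool.Agent.Results.MP_8149cf_al.TorsionFreeNotFB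

open scoped commutatorElement

/-- There is a torsion-free variety of groups, contained in the product variety `N₂N₂`, which
cannot be defined by finitely many laws. -/
theorem result :
    ∃ W : Set (FreeGroup ℕ),
      -- the variety of `W` is contained in `N₂N₂`
      (∀ (G : Type u) [Group G], (∀ w ∈ W, ∀ f : ℕ → G, FreeGroup.lift f w = 1) →
        ∃ N : Subgroup G, N.Normal ∧ (∀ a ∈ N, ∀ b ∈ N, ∀ c ∈ N, ⁅⁅a, b⁆, c⁆ = 1) ∧
          (∀ a b c : G, ⁅⁅a, b⁆, c⁆ ∈ N)) ∧
      -- all relatively free groups of the variety are torsion-free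
      (∀ (X : Type v) (g : FreeGroup X ⧸ Subgroup.normalClosure
          {x : FreeGroup X | ∃ w ∈ W, ∃ φ : FreeGroup ℕ →* FreeGroup X, φ w = x}) (n : ℕ),
        0 < n → g ^ n = 1 → g = 1) ∧
      -- no finite set of laws defines the variety
      ¬ ∃ S : Set (FreeGroup ℕ), S.Finite ∧ ∀ (G : Type) [Group G],
        (∀ w ∈ S, ∀ f : ℕ → G, FreeGroup.lift f w = 1) ↔
          (∀ w ∈ W, ∀ f : ℕ → G, FreeGroup.lift f w = 1) := by
  refine ⟨N57.TF.W, ?_, ?_, ?_⟩
  · intro G _ hG
    have hE : ∀ w ∈ N57.TF.E, N57.TF.Sat G w := fun w hw => hG w (N57.TF.E_sub_W hw)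
    obtain ⟨N, hN, h1, h2⟩ := N57.TF.meta1 (N57.TF.sat_E.1 hE).1
    exact ⟨N, hN, h2, h1⟩
  · intro X g n hn hg
    exact N57.TF.tf_free X g n hn hg
  · rintro ⟨S, hS, h⟩
    refine N57.TF.not_fb ?_ ⟨hS.toFinset, ?_⟩
    · intro k
      refine ⟨k + 1, N57.TF.HH (N57.TF.JJ (k + 1)), inferInstance, ?_,
        N57.TF.fails (k + 1) (Nat.succ_pos k)⟩
      intro w hw hwk
      refine N57.TF.HH_laws _ (N57.TF.JJ_nondeg (k + 1)) k ?_ w hw hwk
      simp only [Fintype.card_prod, Fintype.card_fin, Fintype.card_bool]
      omega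
    · intro G _
      have h1 := h G
      constructor
      · intro h2
        exact h1.1 (fun w hw => h2 w (hS.mem_toFinset.2 hw))
      · intro h2 w hw
        exact h1.2 h2 w (hS.mem_toFinset.1 hw)

end Pool.Agent.Results.MP_8149cf_al.TorsionFreeNotFB
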